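import Mathlib
import Pool.Agent.TH53.UG5
import Pool.Agent.Y730.UG.Tri2

set_option autoImplicit false

/-!
# Growth gap from lower bounds for the Mahler measures of the eigenvalues, and triangular groups
-/

namespace Pool.Agent.U161.RG

open Polynomial Module
open scoped TensorProduct
open Pool.Agent
open Pool.Agent.W963.GE (MM base MM_ge MM_gt eta_ge)
open Pool.Agent.TH53.UG (base_exp act gap_general integral_of_root eig_of_root)
open Pool.Agent.H785R3.GrowthA (gam)

universe u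

/-- the growth of the digit sums in terms of the Mahler measure -/
lemma eta_of_exp {x : ℂ} (hx0 : x ≠ 0) (hxi : IsIntegral ℤ x) {c : ℝ} (hc0 : 0 < c)
    (hc2 : c ≤ 1 / 2) (h2 : Real.exp c ≤ MM x) : c / 3 ≤ H746UG.eta x := by
  have hM0 : 0 < MM x := (Real.exp_pos c).trans_le h2
  refine le_trans ?_ (eta_ge x hx0 hxi)
  refine base_exp hM0 ?_ hc0.le (by linarith)
  have h3 : (1 + c) ^ 2 ≤ MM x ^ 2 := by
    have h4 : 1 + c ≤ Real.exp c := by linarith [Real.add_one_le_exp c]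
    exact pow_le_pow_left₀ (by linarith) (h4.trans h2) 2
  have h5 : 1 / MM x ^ 2 ≤ 1 / (1 + c) ^ 2 :=
    one_div_le_one_div_of_le (by positivity) h3
  have h6 : 1 / (1 + c) ^ 2 ≤ 1 - c := by
    rw [div_le_iff₀ (by positivity)]
    have h7 : (1 - c) * (1 + c) ^ 2 = 1 + c * (1 - c - c ^ 2) := by ring
    have h8 : 0 ≤ 1 - c - c ^ 2 := by nlinarith
    rw [h7]
    nlinarith [mul_nonneg hc0.le h8]
  linarith

/-- `x` is an algebraic unit and not a root of unity -/
def FreeUnit (z : ℂ) : Prop :=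
  z ≠ 0 ∧ IsIntegral ℤ z ∧ IsIntegral ℤ z⁻¹ ∧ ∀ m : ℕ, 0 < m → z ^ m ≠ 1

/-- **growth gap from Mahler measures** -/
theorem gap_mahler {k d : ℕ} (hk : 1 ≤ k) {G : Type u} [Group G] (S : Set G)
    (hfin : S.Finite) (hgen : Subgroup.closure S = ⊤) (H : Subgroup G) (hH0 : H.index ≠ 0)
    (hHd : H.index ≤ d)
    (hnil : Group.IsNilpotent (gam H k) ∨ ¬ Group.IsVirtuallyNilpotent (H ⧸ ⁅gam H k, gam H k⁆))
    {c : ℝ} (hc0 : 0 < c) (hc2 : c ≤ 1 / 2)
    (hc : ∀ (t : H) (z : ℂ), Module.End.HasEigenvalue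
      (LinearMap.baseChange ℂ (act (gam H k) t) :
        Module.End ℂ (ℂ ⊗[ℤ] Additive (Abelianization (gam H k)))) z →
      FreeUnit z → Real.exp c ≤ MM z) :
    Group.IsVirtuallyNilpotent G ∨ c / (12 * 2 ^ k * d) ≤ H746UG.rho S := by
  have hd : 1 ≤ d := by omega
  have h := gap_general hk S hfin hgen H hH0 hHd hnil (c := c / 3)
    (by have := Real.log_two_gt_d9; linarith) (by
    intro hMf t b x hx0 hx hp
    have hxi : IsIntegral ℤ x := integral_of_root _ b hp
    by_cases hi : IsIntegral ℤ x⁻¹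
    · exact eta_of_exp hx0 hxi hc0 hc2
        (hc t x (eig_of_root (act (gam H k) t) b hp (minpoly.aeval ℤ x)) ⟨hx0, hxi, hi, hx⟩)
    · rw [H746UG.eta_eq_log_two x hx0 (fun h => hi h.2)]
      have := Real.log_two_gt_d9
      linarith)
  rcases h with h | h
  · exact Or.inl h
  · right
    refine le_trans ?_ h
    have hd' : (1 : ℝ) ≤ d := by exact_mod_cast hd
    have hpos : (0 : ℝ) < 2 ^ (k + 1) * (2 * d - 1) := by
      have : (0 : ℝ) < 2 * d - 1 := by linarith
      positivity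
    rw [div_div]
    apply div_le_div_of_nonneg_left hc0.le (by positivity)
    have h2k : (0 : ℝ) < 2 ^ k := by positivity
    rw [pow_succ]
    nlinarith

/-- an integer polynomial with the same zeros as the minimal polynomial of an algebraic number -/
lemma exists_int_poly (r : ℂ) : ∃ P : ℤ[X],
    aeval r P = 0 ∧ ∀ z : ℂ, aeval z P = 0 → aeval z (minpoly ℚ r) = 0 := by
  obtain ⟨b, hb, hbP⟩ := IsLocalization.integerNormalization_spec (nonZeroDivisors ℤ) (minpoly ℚ r)
  have hb0 : b ≠ 0 := nonZeroDivisors.ne_zero hb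
  refine ⟨IsLocalization.integerNormalization (nonZeroDivisors ℤ) (minpoly ℚ r), ?_, ?_⟩
  · rw [← aeval_map_algebraMap ℚ, hbP, map_zsmul, minpoly.aeval, smul_zero]
  · intro z hz
    rw [← aeval_map_algebraMap ℚ, hbP, map_zsmul] at hz
    rcases smul_eq_zero.mp hz with h | h
    · exact absurd h hb0
    · exact h

/-- the eigenvalues on the abelianization of the commutator subgroup of a triangular group are
conjugates of quotients of diagonal entries -/
theorem eig_tri' {n : ℕ} {G : Type u} [Group G] (φ : G →* Matrix.GeneralLinearGroup (Fin n) ℂ)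
    (hφ : ∀ g, φ g ∈ Y730.UG.Bor n ℂ)
    (hinj : Function.Injective φ) (t : G) {z : ℂ}
    (hz : Module.End.HasEigenvalue (LinearMap.baseChange ℂ (act (gam G 1) t) :
      Module.End ℂ (ℂ ⊗[ℤ] Additive (Abelianization (gam G 1)))) z) :
    ∃ i j, aeval z (minpoly ℚ (φ t i i / φ t j j)) = 0 := by
  choose P hP1 hP2 using fun i j => exists_int_poly (φ t i i / φ t j j)
  have h := Y730.UG.eig_poly φ hφ hinj t (∏ i, ∏ j, P i j) (fun i j => by
    rw [map_prod]
    apply Finset.prod_eq_zero (Finset.mem_univ i)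
    rw [map_prod]
    apply Finset.prod_eq_zero (Finset.mem_univ j)
    exact hP1 i j) hz
  rw [map_prod, Finset.prod_eq_zero_iff] at h
  obtain ⟨i, -, h⟩ := h
  rw [map_prod, Finset.prod_eq_zero_iff] at h
  obtain ⟨j, -, h⟩ := h
  exact ⟨i, j, hP2 i j z h⟩

/-- conjugates have the same minimal polynomial -/
lemma conj_minpoly {r z : ℂ} (hr : IsAlgebraic ℚ r) (h : aeval z (minpoly ℚ r) = 0) :
    minpoly ℚ z = minpoly ℚ r :=
  (minpoly.eq_of_irreducible_of_monic (minpoly.irreducible hr.isIntegral) h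
    (minpoly.monic hr.isIntegral)).symm

lemma conj_int {r z : ℂ} (hr : IsAlgebraic ℚ r) (h : aeval z (minpoly ℚ r) = 0)
    (hz : IsIntegral ℤ z) : IsIntegral ℤ r ∧ minpoly ℤ r = minpoly ℤ z := by
  have h1 := conj_minpoly hr h
  have h2 : minpoly ℚ z = (minpoly ℤ z).map (algebraMap ℤ ℚ) :=
    minpoly.isIntegrallyClosed_eq_field_fractions' ℚ hz
  have h3 : aeval r (minpoly ℤ z) = 0 := by
    rw [← aeval_map_algebraMap ℚ, ← h2, h1]
    exact minpoly.aeval ℚ r
  have hr' : IsIntegral ℤ r := ⟨minpoly ℤ z, minpoly.monic hz, h3⟩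
  refine ⟨hr', ?_⟩
  have h4 : minpoly ℚ r = (minpoly ℤ r).map (algebraMap ℤ ℚ) :=
    minpoly.isIntegrallyClosed_eq_field_fractions' ℚ hr'
  rw [← h1, h2] at h4
  exact (Polynomial.map_injective _ (algebraMap ℤ ℚ).injective_int h4).symm

/-- the facts on the conjugates of a unit that are used -/
lemma conj_facts {r z : ℂ} (hr : IsAlgebraic ℚ r) (h : aeval z (minpoly ℚ r) = 0)
    (hz : FreeUnit z) : r ≠ 0 ∧ IsIntegral ℤ r ∧ (∀ m : ℕ, 0 < m → r ^ m ≠ 1) ∧ MM r = MM z := by
  obtain ⟨h0, h1, h2, h3⟩ := hz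
  obtain ⟨h4, h5⟩ := conj_int hr h h1
  refine ⟨?_, h4, ?_, ?_⟩
  · rintro rfl
    rw [minpoly.zero, aeval_X] at h
    exact h0 h
  · intro m hm h7
    apply h3 m hm
    have h8 : minpoly ℚ r ∣ X ^ m - 1 := by
      apply minpoly.dvd
      rw [map_sub, map_pow, aeval_X, map_one, h7, sub_self]
    obtain ⟨g, hg⟩ := h8
    have h9 : aeval z (X ^ m - 1 : ℚ[X]) = 0 := by rw [hg, map_mul, h, zero_mul]
    rwa [map_sub, map_pow, aeval_X, map_one, sub_eq_zero] at h9
  · unfold MM
    rw [h5]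

end Pool.Agent.U161.RG
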