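import Mathlib
import Pool.Agent.U161.RG.Base
import Pool.Agent.U218.LD.Cor

set_option autoImplicit false

/-!
# Mahler measures of numbers of small degree over Galois extensions of finite exponent
-/

namespace Pool.Agent.U161.RG

open Polynomial Module IntermediateField
open Pool.Agent
open Pool.Agent.W963.GE (MM MM_gt)

/-- the quantity in the relative Dobrowolski theorem -/
noncomputable def W (C : ℝ) (m : ℕ) (B : ℝ) : ℝ :=
  Real.log B ^ (m + 2) / ((C * m ^ 2) ^ (m + 1) * B ^ (2 * m + 1))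

lemma W_pos {C : ℝ} (hC : 7680 ≤ C) {m : ℕ} (hm : 0 < m) {B : ℝ} (hB : C ≤ B) : 0 < W C m B := by
  have h1 : 0 < Real.log B := Real.log_pos (by linarith)
  have h2 : (0 : ℝ) < m := by exact_mod_cast hm
  have h3 : 0 < B := by linarith
  have h4 : 0 < C := by linarith
  unfold W
  positivity

/-- the degree of `z` over `E` is finite and at most `D` -/
def DegLe (E : IntermediateField ℚ ℂ) (D : ℕ) (z : ℂ) : Prop :=
  IsIntegral E z ∧ (minpoly E z).natDegree ≤ D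

lemma DegLe.div {E : IntermediateField ℚ ℂ} {D : ℕ} {a b : ℂ} (ha : DegLe E D a)
    (hb : DegLe E D b) : DegLe E (D ^ 2) (a / b) := by
  have h1 : IsIntegral E (a / b) := by
    rw [div_eq_mul_inv]
    exact ha.1.mul hb.1.inv
  refine ⟨h1, ?_⟩
  have f1 : FiniteDimensional E E⟮a⟯ := adjoin.finiteDimensional ha.1
  have f2 : FiniteDimensional E E⟮b⟯ := adjoin.finiteDimensional hb.1
  have f3 : FiniteDimensional E ↥(E⟮a⟯ ⊔ E⟮b⟯) := IntermediateField.finiteDimensional_sup _ _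
  have hmem : a / b ∈ E⟮a⟯ ⊔ E⟮b⟯ := by
    refine div_mem ?_ ?_
    · exact (le_sup_left : E⟮a⟯ ≤ _) (mem_adjoin_simple_self E a)
    · exact (le_sup_right : E⟮b⟯ ≤ _) (mem_adjoin_simple_self E b)
  have h2 : (minpoly E (⟨a / b, hmem⟩ : ↥(E⟮a⟯ ⊔ E⟮b⟯))).natDegree ≤
      finrank E ↥(E⟮a⟯ ⊔ E⟮b⟯) := minpoly.natDegree_le _
  have h3 : minpoly E (⟨a / b, hmem⟩ : ↥(E⟮a⟯ ⊔ E⟮b⟯)) = minpoly E (a / b) :=
    (minpoly.algebraMap_eq (A := E) (B := ↥(E⟮a⟯ ⊔ E⟮b⟯)) (B' := ℂ)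
      (algebraMap ↥(E⟮a⟯ ⊔ E⟮b⟯) ℂ).injective ⟨a / b, hmem⟩).symm
  rw [h3] at h2
  refine h2.trans ((IntermediateField.finrank_sup_le _ _).trans ?_)
  rw [adjoin.finrank ha.1, adjoin.finrank hb.1, sq]
  exact Nat.mul_le_mul ha.2 hb.2

lemma minpoly_dvd_map (E : IntermediateField ℚ ℂ) (x : ℂ) :
    minpoly E x ∣ (minpoly ℤ x).map (Int.castRingHom E) := by
  apply minpoly.dvd
  have h1 : aeval x ((minpoly ℤ x).map (algebraMap ℤ E)) = aeval x (minpoly ℤ x) :=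
    aeval_map_algebraMap E x (minpoly ℤ x)
  rw [minpoly.aeval] at h1
  exact h1

theorem rel_bound : ∃ C : ℝ, 7680 ≤ C ∧ ∀ m : ℕ, 0 < m → ∀ E : IntermediateField ℚ ℂ,
    IsGalois ℚ E → (∀ σ : E ≃ₐ[ℚ] E, σ ^ m = 1) → ∀ D : ℕ, 0 < D →
    ∀ x : ℂ, x ≠ 0 → IsIntegral ℤ x → (∀ j : ℕ, 0 < j → x ^ j ≠ 1) →
    (minpoly E x).natDegree ≤ D → Real.exp (W C m (C + m ^ 2 + Real.log D)) ≤ MM x := by
  obtain ⟨C, hC, h⟩ := Pool.Agent.U218.LD.final.{0}
  refine ⟨C, hC, ?_⟩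
  intro m hm E hE hσ D hD x hx0 hxi hx hdeg
  have hM : 1 < ((minpoly ℤ x).map (Int.castRingHom ℂ)).mahlerMeasure := MM_gt x hxi hx0 hx
  have hxE : IsIntegral E x := hxi.tower_top
  have hg0 : 0 < (minpoly E x).natDegree := minpoly.natDegree_pos hxE
  have hg1 : (1 : ℝ) ≤ (minpoly E x).natDegree := by exact_mod_cast hg0
  have hlog : Real.log (minpoly E x).natDegree ≤ Real.log D :=
    Real.log_le_log (by linarith) (by exact_mod_cast hdeg)
  have hlog0 : 0 ≤ Real.log D := Real.log_nonneg (by exact_mod_cast hD)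
  have h1 := ((h m hm (minpoly ℤ x) (minpoly.irreducible hxi) hM).2 E hσ (minpoly E x)
    (minpoly_dvd_map E x) hg0 (C + m ^ 2 + Real.log D) (by linarith)).1 (minpoly.monic hxi)
  refine le_trans (Real.exp_le_exp.2 ?_) h1
  have hW : 0 < W C m (C + m ^ 2 + Real.log D) := W_pos hC hm (by nlinarith [sq_nonneg (m : ℝ)])
  have hle : (minpoly E x).natDegree ≤ (minpoly ℤ x).natDegree := by
    have h2 := natDegree_le_of_dvd (minpoly_dvd_map E x) ((minpoly.monic hxi).map _).ne_zero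
    rwa [(minpoly.monic hxi).natDegree_map] at h2
  have h3 : 1 ≤ ((minpoly ℤ x).natDegree : ℝ) / (minpoly E x).natDegree := by
    rw [le_div_iff₀ (by linarith), one_mul]
    exact_mod_cast hle
  have h4 := mul_le_mul_of_nonneg_right h3 hW.le
  rw [one_mul] at h4
  exact h4

theorem ps_bound (ε : ℝ) (hε : 0 < ε) : ∃ c : ℝ, 0 < c ∧ ∃ κ : ℝ, 0 < κ ∧ κ ≤ 1 / 2 ∧
    ∀ m : ℕ, 0 < m → ∀ E : IntermediateField ℚ ℂ,
    IsGalois ℚ E → (∀ σ : E ≃ₐ[ℚ] E, σ ^ m = 1) →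
    ∀ x : ℂ, x ≠ 0 → IsIntegral ℤ x → (∀ j : ℕ, 0 < j → x ^ j ≠ 1) →
    m * Real.log (Real.log (3 * (minpoly ℤ x).natDegree)) ≤
      c * Real.log (3 * (minpoly ℤ x).natDegree) →
    ((minpoly E x).natDegree : ℝ) ≤ ((minpoly ℤ x).natDegree : ℝ) ^ (1 - ε) →
    Real.exp κ ≤ MM x := by
  obtain ⟨c, hc, μ, hμ, h⟩ := Pool.Agent.U218.LD.power_saving.{0} ε hε
  have hμ0 : 0 < Real.log μ := Real.log_pos hμ
  refine ⟨c, hc, min (1 / 2) (Real.log μ), lt_min (by norm_num) hμ0, min_le_left _ _, ?_⟩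
  intro m hm E hE hσ x hx0 hxi hx hmn hdeg
  have hM : 1 < ((minpoly ℤ x).map (Int.castRingHom ℂ)).mahlerMeasure := MM_gt x hxi hx0 hx
  have hxE : IsIntegral E x := hxi.tower_top
  have h1 := h m hm (minpoly ℤ x) (minpoly.irreducible hxi) hM hmn E hσ (minpoly E x)
    (minpoly_dvd_map E x) (minpoly.natDegree_pos hxE) hdeg
  refine le_trans (le_trans (Real.exp_le_exp.2 (min_le_right _ _)) ?_) h1
  rw [Real.exp_log (by linarith : 0 < μ)]

/-- the diagonal entries of a matrix over `E` brought to triangular form over `ℂ` -/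
lemma diag_deg {n : ℕ} (E : IntermediateField ℚ ℂ) (A : Matrix (Fin n) (Fin n) E)
    (P : Matrix.GeneralLinearGroup (Fin n) ℂ) (T : Matrix (Fin n) (Fin n) ℂ)
    (hT : T = (P : Matrix (Fin n) (Fin n) ℂ) * A.map (algebraMap E ℂ) *
      ((P⁻¹ : Matrix.GeneralLinearGroup (Fin n) ℂ) : Matrix (Fin n) (Fin n) ℂ))
    (htri : ∀ i j : Fin n, j < i → T i j = 0) (i : Fin n) : DegLe E n (T i i) := by
  have h1 : T.charpoly = (A.charpoly).map (algebraMap E ℂ) := by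
    rw [hT]
    have h2 := Matrix.charpoly_units_conj P (A.map (algebraMap E ℂ))
    rw [← Matrix.coe_units_inv] at h2
    rw [h2]
    exact Matrix.charpoly_map A (algebraMap E ℂ)
  have h2 : T.charpoly = ∏ j : Fin n, (X - C (T j j)) :=
    Matrix.charpoly_of_isUpperTriangular T (fun i j hij => htri i j hij)
  have h3 : aeval (T i i) A.charpoly = 0 := by
    rw [← eval_map_algebraMap, ← h1, h2, eval_prod]
    apply Finset.prod_eq_zero (Finset.mem_univ i)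
    simp
  have hmon : A.charpoly.Monic := Matrix.charpoly_monic A
  refine ⟨⟨A.charpoly, hmon, h3⟩, ?_⟩
  have h4 := natDegree_le_of_dvd (minpoly.dvd E (T i i) h3) hmon.ne_zero
  rw [Matrix.charpoly_natDegree_eq_dim, Fintype.card_fin] at h4
  exact h4

end Pool.Agent.U161.RG
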