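import Mathlib
import Pool.Agent.U161.RG.Rel

set_option autoImplicit false

/-!
# Growth gaps over Galois extensions of finite exponent
-/

namespace Pool.Agent.U161.RG

open Polynomial Module IntermediateField
open scoped TensorProduct
open Pool.Agent
open Pool.Agent.W963.GE (MM MM_gt)
open Pool.Agent.TH53.UG (act)
open Pool.Agent.H785R3.GrowthA (gam)

universe u

lemma W_le {C : ℝ} (hC : 7680 ≤ C) {m : ℕ} (hm : 0 < m) {B : ℝ} (hB : C ≤ B) :
    W C m B ≤ 1 / 2 := by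
  have hB1 : 1 ≤ B := by linarith
  have h1 : 0 ≤ Real.log B := Real.log_nonneg hB1
  have h2 : Real.log B ≤ B := by
    have := Real.log_le_sub_one_of_pos (show 0 < B by linarith)
    linarith
  have h3 : Real.log B ^ (m + 2) ≤ B ^ (2 * m + 1) :=
    (pow_le_pow_left₀ h1 h2 _).trans (pow_le_pow_right₀ hB1 (by omega))
  have hm1 : (1 : ℝ) ≤ m := by exact_mod_cast hm
  have h4 : (2 : ℝ) ≤ C * m ^ 2 := by nlinarith
  have h5 : (2 : ℝ) ≤ (C * m ^ 2) ^ (m + 1) := by
    calc (2 : ℝ) = 2 ^ 1 := by norm_num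
      _ ≤ 2 ^ (m + 1) := pow_le_pow_right₀ (by norm_num) (by omega)
      _ ≤ _ := pow_le_pow_left₀ (by norm_num) h4 _
  have h6 : 0 < B ^ (2 * m + 1) := by positivity
  unfold W
  rw [div_le_iff₀ (by positivity)]
  nlinarith

/-- `H` is isomorphic to a group of upper triangular complex matrices whose diagonal entries have
degree at most `D` over `E` -/
def Tri (E : IntermediateField ℚ ℂ) (D : ℕ) (H : Type u) [Group H] : Prop :=
  ∃ (N : ℕ) (φ : H →* Matrix.GeneralLinearGroup (Fin N) ℂ), Function.Injective φ ∧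
    ∀ h : H, (∀ i j : Fin N, j < i → φ h i j = 0) ∧ ∀ i : Fin N, DegLe E D (φ h i i)

theorem main : ∃ C : ℝ, 7680 ≤ C ∧ ∀ m : ℕ, 0 < m → ∀ E : IntermediateField ℚ ℂ,
    IsGalois ℚ E → (∀ σ : E ≃ₐ[ℚ] E, σ ^ m = 1) → ∀ D : ℕ, 0 < D →
    ∀ (G : Type u) [Group G] (S : Set G), S.Finite → Subgroup.closure S = ⊤ →
    ∀ (d : ℕ) (H : Subgroup G), H.index ≠ 0 → H.index ≤ d →
    (∀ k : ℕ, 1 ≤ k →
      (Group.IsNilpotent (gam H k) ∨ ¬ Group.IsVirtuallyNilpotent (H ⧸ ⁅gam H k, gam H k⁆)) →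
      (∀ (t : H) (z : ℂ), Module.End.HasEigenvalue
        (LinearMap.baseChange ℂ (act (gam H k) t) :
          Module.End ℂ (ℂ ⊗[ℤ] Additive (Abelianization (gam H k)))) z →
        FreeUnit z → (minpoly E z).natDegree ≤ D) →
      Group.IsVirtuallyNilpotent G ∨
        W C m (C + m ^ 2 + Real.log D) / (12 * 2 ^ k * d) ≤ H746UG.rho S) ∧
    (Tri E D H → Group.IsVirtuallyNilpotent G ∨
        W C m (C + m ^ 2 + 2 * Real.log D) / (24 * d) ≤ H746UG.rho S) := by
  obtain ⟨C, hC, hb⟩ := rel_bound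
  refine ⟨C, hC, ?_⟩
  intro m hm E hE hσ D hD G _ S hfin hgen d H hH0 hHd
  have hlog0 : 0 ≤ Real.log D := Real.log_nonneg (by exact_mod_cast hD)
  have hB1 : C ≤ C + m ^ 2 + Real.log D := by nlinarith [sq_nonneg (m : ℝ)]
  have hB2 : C ≤ C + m ^ 2 + 2 * Real.log D := by nlinarith [sq_nonneg (m : ℝ)]
  constructor
  · intro k hk hnil hdeg
    refine gap_mahler hk S hfin hgen H hH0 hHd hnil (W_pos hC hm hB1) (W_le hC hm hB1) ?_
    intro t z hz hu
    exact hb m hm E hE hσ D hD z hu.1 hu.2.1 hu.2.2.2 (hdeg t z hz hu)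
  · rintro ⟨N, φ, hφ, htri⟩
    have hB : ∀ h, φ h ∈ Y730.UG.Bor N ℂ := fun h => Y730.UG.mem_Bor (htri h).1
    have h1 := gap_mahler le_rfl S hfin hgen H hH0 hHd
      (Or.inl (Y730.UG.gam_nilp φ hB hφ)) (W_pos hC hm hB2) (W_le hC hm hB2) (by
        intro t z hz hu
        obtain ⟨i, j, hij⟩ := eig_tri' φ hB hφ t hz
        have hdij := ((htri t).2 i).div ((htri t).2 j)
        have hEalg : Algebra.IsAlgebraic ℚ E := inferInstance
        have halg : IsAlgebraic ℚ (φ t i i / φ t j j) :=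
          (hdij.1.isAlgebraic).restrictScalars ℚ
        obtain ⟨h2, h3, h4, h5⟩ := conj_facts halg hij hu
        rw [← h5]
        have h6 := hb m hm E hE hσ (D ^ 2) (by positivity) _ h2 h3 h4 hdij.2
        have h7 : Real.log ((D ^ 2 : ℕ) : ℝ) = 2 * Real.log D := by
          rw [Nat.cast_pow, Real.log_pow]; push_cast; ring
        rw [h7] at h6
        exact h6)
    rcases h1 with h | h
    · exact Or.inl h
    · right
      have e : (12 : ℝ) * 2 ^ 1 * d = 24 * d := by ring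
      rw [← e]
      exact h

/-- linear groups over `E` with a triangularizable subgroup -/
lemma tri_of_linear {n : ℕ} (E : IntermediateField ℚ ℂ) {G : Type u} [Group G]
    (φ : G →* Matrix.GeneralLinearGroup (Fin n) E) (hφ : Function.Injective φ) (H : Subgroup G)
    (P : Matrix.GeneralLinearGroup (Fin n) ℂ)
    (hP : ∀ h ∈ H, ∀ i j : Fin n, j < i →
      (P * Matrix.GeneralLinearGroup.map (algebraMap E ℂ) (φ h) * P⁻¹ :
        Matrix.GeneralLinearGroup (Fin n) ℂ) i j = 0) : Tri E n H := by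
  let ψ : H →* Matrix.GeneralLinearGroup (Fin n) ℂ :=
    ((MulAut.conj P).toMonoidHom.comp
      (Matrix.GeneralLinearGroup.map (algebraMap E ℂ))).comp (φ.comp H.subtype)
  have hψ : ∀ h : H, ψ h =
      P * Matrix.GeneralLinearGroup.map (algebraMap E ℂ) (φ h) * P⁻¹ := fun h => rfl
  refine ⟨n, ψ, ?_, ?_⟩
  · intro a b hab
    rw [hψ, hψ] at hab
    have h1 := mul_left_cancel (mul_right_cancel hab)
    have h2 : φ a = φ b := by
      apply Matrix.GeneralLinearGroup.ext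
      intro i j
      have h3 := congrArg (fun g : Matrix.GeneralLinearGroup (Fin n) ℂ => g i j) h1
      simp only [Matrix.GeneralLinearGroup.map_apply] at h3
      exact (algebraMap E ℂ).injective h3
    exact Subtype.ext (hφ h2)
  · intro h
    refine ⟨fun i j hij => ?_, fun i => ?_⟩
    · rw [hψ]
      exact hP h h.2 i j hij
    · refine diag_deg E (φ h : Matrix (Fin n) (Fin n) E) P (ψ h : Matrix (Fin n) (Fin n) ℂ) ?_ ?_ i
      · rw [hψ]
        rfl
      · intro i j hij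
        rw [hψ]
        exact hP h h.2 i j hij

/-- the absolute gap when the relative degrees save a power -/
theorem main_ps (ε : ℝ) (hε : 0 < ε) : ∃ c : ℝ, 0 < c ∧ ∃ κ : ℝ, 0 < κ ∧
    ∀ (G : Type u) [Group G] (S : Set G), S.Finite → Subgroup.closure S = ⊤ →
    ∀ (d : ℕ) (H : Subgroup G), H.index ≠ 0 → H.index ≤ d →
    ∀ k : ℕ, 1 ≤ k →
      (Group.IsNilpotent (gam H k) ∨ ¬ Group.IsVirtuallyNilpotent (H ⧸ ⁅gam H k, gam H k⁆)) →
      (∀ (t : H) (z : ℂ), Module.End.HasEigenvalue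
        (LinearMap.baseChange ℂ (act (gam H k) t) :
          Module.End ℂ (ℂ ⊗[ℤ] Additive (Abelianization (gam H k)))) z →
        FreeUnit z → ∃ (m : ℕ) (E : IntermediateField ℚ ℂ), 0 < m ∧ IsGalois ℚ E ∧
          (∀ σ : E ≃ₐ[ℚ] E, σ ^ m = 1) ∧
          m * Real.log (Real.log (3 * (minpoly ℤ z).natDegree)) ≤
            c * Real.log (3 * (minpoly ℤ z).natDegree) ∧
          ((minpoly E z).natDegree : ℝ) ≤ ((minpoly ℤ z).natDegree : ℝ) ^ (1 - ε)) →
      Group.IsVirtuallyNilpotent G ∨ κ / (2 ^ k * d) ≤ H746UG.rho S := by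
  obtain ⟨c, hc, κ, hκ, hκ2, h⟩ := ps_bound ε hε
  refine ⟨c, hc, κ / 12, by positivity, ?_⟩
  intro G _ S hfin hgen d H hH0 hHd k hk hnil hE
  have h1 := gap_mahler hk S hfin hgen H hH0 hHd hnil hκ hκ2 (by
    intro t z hz hu
    obtain ⟨m, E, hm, hG, hσ, h2, h3⟩ := hE t z hz hu
    exact h m hm E hG hσ z hu.1 hu.2.1 hu.2.2.2 h2 h3)
  rcases h1 with h1 | h1
  · exact Or.inl h1
  · right
    rw [div_div, ← mul_assoc]
    exact h1

end Pool.Agent.U161.RG
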